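import Pool.Agent.H43.TL2.M59

/-!
# MQ3 EnU: the energy estimates with constants which do not depend on the curve
-/

set_option autoImplicit false

open MeasureTheory Topology Filter Metric Laplacian

noncomputable section

namespace Pool.Agent.MQ3

open Pool.Agent.MQ
open Pool.Agent.H30M (gg lap_comp lap_mul lap_add lap_congr gg_congr gg_sq_le gg_self_nonneg gg_comm gg_comp abs_gg_le)

/-! ## polydiscs -/

/-- bounds for the cut-off; the constant does not depend on the curve -/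
theorem cut_bdU {a b : ℝ} (hb0 : 0 ≤ b) (hab : a < b) (hb : b < 1) (D : ℝ) : ∃ C : ℝ, 0 ≤ C ∧ ∀ (U : Set ℂ) (x y : ℂ → ℂ) (l : ℂ → ℝ),
    Crd U x y → (∀ z, 0 ≤ l z) → (∀ z ∈ Kb U x y b, ‖deriv x z‖ ≤ D * l z ∧ ‖deriv y z‖ ≤ D * l z) → ∀ z,
      gg (cut U x y a b) (cut U x y a b) z ≤ C * l z ^ 2 ∧ |Δ (cut U x y a b) z| ≤ C * l z ^ 2 := by
  obtain ⟨E, hE0, hE⟩ := et_bd a b
  refine ⟨64 * (E + 1) ^ 2 * D ^ 2, by positivity, fun U x y l h hl0 hD z => ?_⟩
  by_cases hz : z ∈ Kb U x y b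
  · obtain ⟨dx, dy⟩ := hD z hz
    obtain ⟨hzU, hx1, hy1⟩ := hz
    set u : ℂ → ℝ := fun w => ‖x w‖ ^ 2 with hu
    set v : ℂ → ℝ := fun w => ‖y w‖ ^ 2 with hv
    have cu : ContDiffAt ℝ 2 u z := cd_sq (h.ax hzU)
    have cv : ContDiffAt ℝ 2 v z := cd_sq (h.ay hzU)
    have du := cu.differentiableAt (by norm_num)
    have dv := cv.differentiableAt (by norm_num)
    have ce := (et_cd a b).contDiffAt (x := u z)
    have ce' := (et_cd a b).contDiffAt (x := v z)
    have de := ce.differentiableAt (by norm_num)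
    have de' := ce'.differentiableAt (by norm_num)
    have hu0 : 0 ≤ u z := by positivity
    have hv0 : 0 ≤ v z := by positivity
    have hub : u z ≤ 1 := hx1.trans hb.le
    have hvb : v z ≤ 1 := hy1.trans hb.le
    obtain ⟨p1, p2⟩ := hE (u z) hu0 hub
    obtain ⟨q1, q2⟩ := hE (v z) hv0 hvb
    have hl := hl0 z
    have nx : ‖deriv x z‖ ^ 2 ≤ D ^ 2 * l z ^ 2 := by
      rw [← mul_pow]
      exact pow_le_pow_left₀ (norm_nonneg _) dx 2
    have ny : ‖deriv y z‖ ^ 2 ≤ D ^ 2 * l z ^ 2 := by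
      rw [← mul_pow]
      exact pow_le_pow_left₀ (norm_nonneg _) dy 2
    set m := D ^ 2 * l z ^ 2 with hm
    have hm0 : 0 ≤ m := (sq_nonneg _).trans nx
    -- the two factors
    set f : ℂ → ℝ := fun w => et a b (u w) with hf
    set g : ℂ → ℝ := fun w => et a b (v w) with hg
    have cf : ContDiffAt ℝ 2 f z := ce.comp z cu
    have cg : ContDiffAt ℝ 2 g z := ce'.comp z cv
    have gu : gg u u z = 4 * u z * ‖deriv x z‖ ^ 2 := gg_sq (h.ax hzU)
    have gv : gg v v z = 4 * v z * ‖deriv y z‖ ^ 2 := gg_sq (h.ay hzU)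
    have gf : gg f f z ≤ 4 * E ^ 2 * m := by
      have e1 : gg f f z = deriv (et a b) (u z) ^ 2 * gg u u z := by
        rw [gg_comp de du, gg_comm u f, gg_comp de du]
        ring
      rw [e1, gu]
      have e2 : deriv (et a b) (u z) ^ 2 ≤ E ^ 2 := sq_le_sq' (by linarith [(abs_le.1 p1).1]) (abs_le.1 p1).2
      calc deriv (et a b) (u z) ^ 2 * (4 * u z * ‖deriv x z‖ ^ 2) ≤ E ^ 2 * (4 * 1 * m) := by gcongr
        _ = _ := by ring
    have gg' : gg g g z ≤ 4 * E ^ 2 * m := by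
      have e1 : gg g g z = deriv (et a b) (v z) ^ 2 * gg v v z := by
        rw [gg_comp de' dv, gg_comm v g, gg_comp de' dv]
        ring
      rw [e1, gv]
      have e2 : deriv (et a b) (v z) ^ 2 ≤ E ^ 2 := sq_le_sq' (by linarith [(abs_le.1 q1).1]) (abs_le.1 q1).2
      calc deriv (et a b) (v z) ^ 2 * (4 * v z * ‖deriv y z‖ ^ 2) ≤ E ^ 2 * (4 * 1 * m) := by gcongr
        _ = _ := by ring
    have lf : |Δ f z| ≤ 8 * E * m := by
      rw [lap_comp ce cu, lap_sq (h.ax hzU), gu]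
      refine (abs_add_le _ _).trans ((add_le_add (abs_mul_le' p1 (by positivity) (show 4 * ‖deriv x z‖ ^ 2 ≤ 4 * m by gcongr))
        (abs_mul_le' p2 (by positivity) (show 4 * u z * ‖deriv x z‖ ^ 2 ≤ 4 * 1 * m by gcongr))).trans (le_of_eq (by ring)))
    have lg : |Δ g z| ≤ 8 * E * m := by
      rw [lap_comp ce' cv, lap_sq (h.ay hzU), gv]
      refine (abs_add_le _ _).trans ((add_le_add (abs_mul_le' q1 (by positivity) (show 4 * ‖deriv y z‖ ^ 2 ≤ 4 * m by gcongr))
        (abs_mul_le' q2 (by positivity) (show 4 * v z * ‖deriv y z‖ ^ 2 ≤ 4 * 1 * m by gcongr))).trans (le_of_eq (by ring)))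
    have f0 : 0 ≤ f z := et_nonneg _ _ _
    have f1 : f z ≤ 1 := et_le_one _ _ _
    have g0 : 0 ≤ g z := et_nonneg _ _ _
    have g1 : g z ≤ 1 := et_le_one _ _ _
    have hcut : cut U x y a b =ᶠ[𝓝 z] fun w => f w * g w := cut_ev h hzU
    have gfg : |gg f g z| ≤ 4 * E ^ 2 * m := by
      refine (Pool.Agent.H30M.abs_gg_le f g z).trans ?_
      have s1 : √(gg f f z) * √(gg g g z) ≤ √(4 * E ^ 2 * m) * √(4 * E ^ 2 * m) := by
        gcongr
      refine s1.trans ?_
      rw [Real.mul_self_sqrt (by positivity)]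
    constructor
    · rw [gg_congr hcut, gg_comm, gg_congr hcut]
      have e1 : gg (fun w => f w * g w) (fun w => f w * g w) z =
          f z ^ 2 * gg g g z + g z ^ 2 * gg f f z + 2 * (f z * g z) * gg f g z := by
        unfold gg
        rw [fderiv_fun_mul (cf.differentiableAt (by norm_num)) (cg.differentiableAt (by norm_num))]
        simp only [add_apply, smul_apply, smul_eq_mul]
        ring
      rw [e1]
      have e2 : f z ^ 2 * gg g g z ≤ 1 ^ 2 * (4 * E ^ 2 * m) := by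
        have := gg_self_nonneg g z
        gcongr
      have e3 : g z ^ 2 * gg f f z ≤ 1 ^ 2 * (4 * E ^ 2 * m) := by
        have := gg_self_nonneg f z
        gcongr
      have e4 : 2 * (f z * g z) * gg f g z ≤ 2 * (1 * 1) * (4 * E ^ 2 * m) := by
        refine (le_abs_self _).trans ?_
        rw [abs_mul, abs_of_nonneg (by positivity)]
        gcongr
      have e5 : E ^ 2 ≤ (E + 1) ^ 2 := pow_le_pow_left₀ hE0 (le_add_of_nonneg_right zero_le_one) 2
      have : 16 * E ^ 2 * m ≤ 16 * (E + 1) ^ 2 * m := by gcongr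
      have e6 : 64 * (E + 1) ^ 2 * D ^ 2 * l z ^ 2 = 64 * (E + 1) ^ 2 * m := by rw [hm]; ring
      rw [e6]
      calc f z ^ 2 * gg g g z + g z ^ 2 * gg f f z + 2 * (f z * g z) * gg f g z
          ≤ 1 ^ 2 * (4 * E ^ 2 * m) + 1 ^ 2 * (4 * E ^ 2 * m) + 2 * (1 * 1) * (4 * E ^ 2 * m) := add_le_add (add_le_add e2 e3) e4
        _ = 16 * E ^ 2 * m := by ring
        _ ≤ 16 * (E + 1) ^ 2 * m := this
        _ ≤ 64 * (E + 1) ^ 2 * m := mul_le_mul_of_nonneg_right (mul_le_mul_of_nonneg_right (by norm_num) (sq_nonneg _)) hm0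
    · rw [lap_congr hcut, lap_mul cf cg]
      have e2 : |f z * Δ g z| ≤ 1 * (8 * E * m) := by
        rw [abs_mul, abs_of_nonneg f0]
        gcongr
      have e3 : |g z * Δ f z| ≤ 1 * (8 * E * m) := by
        rw [abs_mul, abs_of_nonneg g0]
        gcongr
      have e4 : |2 * gg f g z| ≤ 2 * (4 * E ^ 2 * m) := by
        rw [abs_mul, abs_of_nonneg (by norm_num : (0 : ℝ) ≤ 2)]
        gcongr
      have e5 : |f z * Δ g z + g z * Δ f z + 2 * gg f g z| ≤ 1 * (8 * E * m) + 1 * (8 * E * m) + 2 * (4 * E ^ 2 * m) :=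
        (abs_add_le _ _).trans (add_le_add ((abs_add_le _ _).trans (add_le_add e2 e3)) e4)
      refine e5.trans ?_
      have e6 : 64 * (E + 1) ^ 2 * D ^ 2 * l z ^ 2 = 64 * (E + 1) ^ 2 * m := by rw [hm]; ring
      rw [e6]
      have e7 : 64 * (E + 1) ^ 2 * m = (1 * (8 * E * m) + 1 * (8 * E * m) + 2 * (4 * E ^ 2 * m)) +
          (56 * (E ^ 2 * m) + 112 * (E * m) + 64 * m) := by ring
      rw [e7]
      exact le_add_of_nonneg_right (add_nonneg (add_nonneg (mul_nonneg (by norm_num) (mul_nonneg (sq_nonneg E) hm0))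
        (mul_nonneg (by norm_num) (mul_nonneg hE0 hm0))) (mul_nonneg (by norm_num) hm0))
  · have h0 := cut_ev_zero h hb0 hab hb hz
    have e1 : gg (cut U x y a b) (cut U x y a b) z = 0 := by
      rw [gg_congr h0]
      unfold gg
      simp
    have e2 : Δ (cut U x y a b) z = 0 := by
      rw [lap_congr h0]
      simp [InnerProductSpace.laplacian_const]
    rw [e1, e2, abs_zero]
    constructor <;> positivity

end Pool.Agent.MQ3
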